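import Pool.Agent.H67FP.Main

/-!
# The conjecture of Mumford and Tate for all powers of a variety follows from the fourth power

Let `Y` be a smooth projective variety of dimension `d` over a number field, `V` its cohomology, and
denote by `T j k` and `H j k` the subspaces of `H^{2j}(Y ^ k, ℚ_ℓ (j))` generated by the Tate classes
and by the Hodge classes. The question asks if `T j k = H j k` for all `j` and `k`.

**Theorem.** Suppose that the representation of the Galois group on `End V`, that is, on
`H^*(Y × Y)`, is semisimple (Faltings, for abelian varieties). Then `T j k = H j k` for all `j` and
`k` if and only if

* `T 2d 4 = H 2d 4`, that is, the equality holds for the cohomology of middle degree of the fourth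
  power of `Y`, and
* the centres agree: the elements of the centre of the algebra of endomorphisms of the Hodge
  structure, with coefficients in `ℚ_ℓ`, which kill all classes that are both Hodge and Tate, kill
  all Hodge and all Tate classes.

The second condition holds if the involution of a polarization is trivial on the centre of the
algebra of endomorphisms of the Hodge structure (no factors of type IV); for abelian varieties it is
always true by theorems of Vasiu and of Ullmo and Yafaev. It is not assumed that Hodge classes are
Tate classes; this is a part of the conclusion.

So the infinitely many cases of the conjecture for the powers of `Y` are equivalent to one of them,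
and this case is a comparison of two finite-dimensional spaces. One may replace `V` by any part of
the cohomology with a pairing. If `Y = A` is an abelian variety, `V = H¹(A)` and `d = 1`, the class
`Δ` being the class of a polarization, then the tensor powers `V ^ {⊗ k}` contain the information on
all classes on all the powers of `A`, and the case which decides is that of `V ^ {⊗ 4} (2)`, a part
of `H⁴(A⁴)(2)`: **the conjecture of Mumford and Tate for an abelian variety is equivalent to its
case of codimension two on the fourth power.** The same holds for `V = H¹` of a curve `C`: the case of
codimension two on `C⁴`.

Idea of the proof. Let `𝔤` and `𝔪` be the Lie algebras of the endomorphisms of `V` (with coefficients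
in `ℚ_ℓ`) which kill, as derivations, all Tate classes and all Hodge classes. Conversely the classes
killed by `𝔤` are Tate classes: the logarithm of an element of the Galois group congruent to one
modulo `ℓ ²` (a limit of `(γ ^ (ℓ ^ m) - 1) / ℓ ^ m`) is in `𝔤` up to a scalar in each degree. The
classes killed by `𝔪` are combinations of Hodge classes, because the operator `p - q` is in the
complexification of the rational form of `𝔪`. By semisimplicity there is an equivariant projection
`π` from `End V` to `𝔤`. It is itself a Tate class of degree `4 d` on `Y⁴`! So it is a combination
of Hodge classes and commutes with `𝔪`. For `y` in `𝔪` it follows that `y - π (y)` commutes with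
`𝔤`, and then with `𝔪` and all the endomorphisms, so that it is in the centre; in the same way
with the roles of `𝔤` and `𝔪` exchanged. So `𝔤 = 𝔪` up to the centre. No classification of
representations is needed.

Author: helper67.
-/

set_option autoImplicit false

open Pool.Agent.H67FP

namespace Pool.Agent.Results.MP_6c781a_ag.FourthPower

/-- The equality of the spaces generated by the Hodge classes and by the Tate classes on all powers,
in all degrees, is equivalent to the equality in the middle degree of the fourth power and the
agreement of the centres; and the centres agree if there are no factors of type IV. -/
theorem result {ℓ : ℕ} [Fact ℓ.Prime] {Γ ι : Type} [Group Γ] [Fintype ι] [DecidableEq ι]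
    (D : Cohomology ℓ Γ ι) (hG : D.GaloisSemisimple) (hH : D.HodgeSemisimple) :
    ((∀ j k : ℕ, D.tateSpan j k = D.hodgeSpan j k) ↔
      D.tateSpan (2 * D.d) 4 = D.hodgeSpan (2 * D.d) 4 ∧ D.CentresAgree) ∧
    (D.NoTypeFour → D.CentresAgree) :=
  ⟨D.main_iff hG hH, D.centresAgree_of_noTypeFour⟩

end Pool.Agent.Results.MP_6c781a_ag.FourthPower
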