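import Pool.Agent.H60ZO.Law6

/-!
# A zero-one law for the rational Hodge classes among the Tate classes on the powers of a variety

Let `Y` be a smooth projective variety over a number field and `ℓ` a prime number. Call a rational
class on a power of `Y` *both* if it is a Hodge class and (its image in the `ℓ`-adic cohomology is) a
Tate class. We prove:

1. All Tate classes in `H^{2j}(Y^k, ℚ_ℓ(j))`, for all `j` and `k`, are linear combinations with
coefficients in `ℚ_ℓ` of classes which are both (in particular the inclusion `𝓣_{j,k} ⊆ 𝓗_{j,k}` of
the Mumford-Tate conjecture holds for all `j` and `k`) if and only if the number of the linearly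
independent classes which are both, divided by the dimension of the space of the Tate classes on
`Y ^ k`, does not tend to zero.

2. The Mumford-Tate conjecture `𝓗_{j,k} = 𝓣_{j,k}` holds for all `j` and `k` if and only if the
classes which are both are not negligible in this sense, neither among the Tate classes nor among the
Hodge classes. So either it holds for all powers of `Y`, or the numbers of independent Hodge classes
and Tate classes on `Y ^ k` which can be matched are negligible.

3. In particular it holds for all powers of `Y` if the motivated (for example the algebraic) classes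
are neither negligible among the Hodge classes nor among the Tate classes.

The proof: let `T` be the class of the Tate classes and `Q` the class of the combinations of the
classes which are both; `Q` is nondegenerate by the Hodge-Riemann relations. If `Q` is not negligible
in `T`, then by the index law `T` is generated over `Q` by finitely many classes. Choose an embedding
of `ℚ_ℓ` into `ℂ`. The Galois group acts on the cohomology with coefficients in `ℚ_ℓ` and the group of
the nonzero complex numbers on the one with real coefficients; every embedding of `ℚ_ℓ` or `ℝ` into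
`ℂ`, most of which are wild, turns these actions into actions on the cohomology with complex
coefficients, for which the classes in `Q` have finite orbits. The coefficient functions of the
classes in `T` for each of these actions form a finitely generated module over the functions with
finitely many values, which is closed under multiplication. So they have finitely many values, and
the classes in `T` have finite orbits. The space of the classes with finite orbits for all the
embeddings is stable under the automorphisms of `ℂ`. So it is spanned by rational classes, which are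
Tate classes and Hodge classes.

The setting is that of the starting files: `𝒱` is the class of the smooth projective varieties over
the number field, `W` is the singular cohomology of their complex points with rational coefficients
(`hK`) as a Weil cohomology theory, `Ψ` its Hodge structures, `G` the action of the Galois group `Γ`
on the cohomology with `ℓ`-adic coefficients, `pw X n` the product of `n + 1` copies of `X`.
-/

open CategoryTheory AlgebraicGeometry Filter Topology

universe u

namespace Pool.Agent.Results.MP_6c781a_ag.HodgeAmongTate

open Pool.Agent.H914 Pool.Agent.H914.VarClass Pool.Agent.H914.VarClass.Obj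
  Pool.Agent.H914.WeilCohomology Pool.Agent.Y133.Hdg Pool.Agent.R920.MT Pool.Agent.H60ZO.Gal
open Pool.Agent.Y133.Half (pw dimBy)

variable {k : Type u} [Field k] {𝒱 : VarClass k} {ops : CycleOps 𝒱}
  {W : WeilCohomology.{u, 0} ops} [Algebra W.K ℝ]

/-- The rational class `c` is a Hodge class, and its image in the `ℓ`-adic cohomology is a Tate
class. -/
def IsBoth (Ψ : HodgeStr W) {ℓ : ℕ} [Fact ℓ.Prime] [Algebra W.K ℚ_[ℓ]] {Γ : Type} [Group Γ]
    (G : GaloisAction W ℚ_[ℓ] Γ) (Z : 𝒱.Obj) (j : ℕ) (c : W.H Z) : Prop :=
  IsHodge Ψ Z j c ∧ IsTate G Z j c

/-- All Tate classes on all powers of `X` are linear combinations, with coefficients in `ℚ_ℓ`, of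
rational classes which are both Hodge classes and Tate classes. -/
def TateFromBoth (Ψ : HodgeStr W) {ℓ : ℕ} [Fact ℓ.Prime] [Algebra W.K ℚ_[ℓ]] {Γ : Type} [Group Γ]
    (G : GaloisAction W ℚ_[ℓ] Γ) (X : 𝒱.Obj) : Prop :=
  ∀ n j x, IsTateClass G (pw X n) j x → InSpan {c | IsBoth Ψ G (pw X n) j c} x

/-- The Mumford-Tate conjecture for all powers of `X`: the Tate classes are the linear combinations
of the Hodge classes. -/
def MumfordTate (Ψ : HodgeStr W) {ℓ : ℕ} [Fact ℓ.Prime] [Algebra W.K ℚ_[ℓ]] {Γ : Type} [Group Γ]
    (G : GaloisAction W ℚ_[ℓ] Γ) (X : 𝒱.Obj) : Prop :=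
  ∀ n j x, IsTateClass G (pw X n) j x ↔ InSpan {c | IsHodge Ψ (pw X n) j c} x

/-- The quotients `a n / b n` tend to zero. -/
def Negligible (a b : ℕ → ℕ) : Prop := Tendsto (fun n => (a n : ℝ) / b n) atTop (𝓝 0)

/-- **The zero-one law for the Mumford-Tate conjecture.** -/
theorem result (W : WeilCohomology.{u, 0} ops) (hK : ∀ a : W.K, ∃ q : ℚ, (q : W.K) = a)
    [Algebra W.K ℝ] (Ψ : HodgeStr W) (ℓ : ℕ) [Fact ℓ.Prime] [Algebra W.K ℚ_[ℓ]] (Γ : Type)
    [Group Γ] (G : GaloisAction W ℚ_[ℓ] Γ) (X : 𝒱.Obj) [Nontrivial (W.H X)] (b h t m : ℕ → ℕ)
    (hb : ∀ n, b n = dimBy W (IsBoth Ψ G) (pw X n))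
    (hh : ∀ n, h n = dimBy W (IsHodge Ψ) (pw X n))
    (ht : ∀ n, t n = dimE {x | ∃ j, IsTateClass G (pw X n) j x})
    (hm : ∀ n, m n = dimBy W (IsMotivated W) (pw X n)) :
    (TateFromBoth Ψ G X ↔ ¬ Negligible b t) ∧
    (MumfordTate Ψ G X ↔ ¬ Negligible b h ∧ ¬ Negligible b t) ∧
    (¬ Negligible m h → ¬ Negligible m t → MumfordTate Ψ G X) := by
  obtain rfl := funext hb
  obtain rfl := funext hh
  obtain rfl := funext ht
  obtain rfl := funext hm
  obtain ⟨h1, h2⟩ := Pool.Agent.H60ZO.mt_law hK Ψ ℓ G X
  refine ⟨h1, h2, fun h3 h4 => h2.2 ⟨fun h5 => h3 ?_, fun h5 => h4 ?_⟩⟩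
  · exact Pool.Agent.H60ZO.tendsto_of_le (fun n => Pool.Agent.H60ZO.mot_both Ψ G _) h5
  · exact Pool.Agent.H60ZO.tendsto_of_le (fun n => Pool.Agent.H60ZO.mot_both Ψ G _) h5

end Pool.Agent.Results.MP_6c781a_ag.HodgeAmongTate
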