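import Pool.Agent.H60FP.Defs
import Pool.Agent.H60FP.Kappa
import Pool.Agent.H60FP.Triv

/-!
# One Hodge class on the fourth power of a variety decides if all Hodge classes on all powers are Tate

Let `Y` be a smooth projective variety of dimension `d` over a field `L ⊂ ℂ`. The conjecture of
Mumford and Tate says, for all powers of `Y`, that the Hodge classes in `H^{2j}(Y ^ k, ℚ)` are Tate
classes and generate the space of `ℓ`-adic Tate classes. The first half is known for abelian varieties
(Deligne). We prove for every `Y` that it can be checked on one Hodge class `κ` in `H^{4d}(Y⁴)`, the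
class of a projector to the Lie algebra of the Hodge group, which depends only on the Hodge structure
of `Y`: for all primes `ℓ` and all models of `Y` the following are equivalent, if there is no factor
of type IV:

* all Hodge classes on all powers of `Y` are `ℓ`-adic Tate classes;
* `κ` and the Hodge classes in `H^{2d}(Y × Y)` (the endomorphisms of the Hodge structure) are
  `ℓ`-adic Tate classes.

In general a condition on the centre of the Mumford-Tate group has to be added. In particular, if
the Hodge conjecture is true for `κ` and for the endomorphisms, for instance if it is true for `Y⁴` in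
codimension `2 d` (no factor of type IV), then all Hodge classes on all powers of `Y` are Tate
classes, for all `ℓ`. No semisimplicity of the Galois representation is assumed.

Idea of the proof. `κ` is a projector `End V → 𝔪` to the Lie algebra `𝔪` of the Hodge group, a
tensor of degree four on `V = H^*(Y)`. Let `𝔤` be the Lie algebra of the endomorphisms of `V ⊗ ℚ_ℓ`
which kill all Tate classes; the classes which it kills are Tate classes (helper67). If `κ` is a Tate
class then it commutes with `𝔤`, and it follows for `x ∈ 𝔤` that `x - κ x` commutes with `𝔪`; so it is
an endomorphism of the Hodge structure, and it is in the centre if the endomorphisms are Tate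
classes. So `𝔤` is contained in `𝔪` up to the centre, and kills the Hodge classes. This is one half of
the argument of helper67 (`Pool.Agent.Results.MP_6c781a_ag.FourthPower`), where both halves of the
conjecture are treated together, for semisimple Galois representations.
-/

set_option autoImplicit false

open Pool.Agent.H67FP Pool.Agent.H60FP

namespace Pool.Agent.Results.MP_6c781a_ag.OneClassOnFourthPower

/-- **One Hodge class on `Y⁴` decides if all Hodge classes on all powers of `Y` are Tate classes.**
There is a projector `f` to the Lie algebra of the Hodge group; its class `κ` is a Hodge class on `Y⁴`.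
For every such `f` and for every Galois representation, for any `ℓ`, all Hodge classes on all powers
of `Y` are Tate classes if and only if `κ` and the endomorphisms of the Hodge structure are Tate classes
and the condition on the centre holds; this condition holds if there is no factor of type IV. -/
theorem result {ι : Type} [Fintype ι] [DecidableEq ι] (Y : HodgeData ι) (hY : Y.Semisimple) :
    (∃ f, Y.IsProjector f) ∧
      ∀ f, Y.IsProjector f → ∀ (ℓ : ℕ) [Fact ℓ.Prime] (Γ : Type) [Group Γ] (R : GaloisRep ℓ Γ Y),
        (R.HodgeAreTate ↔ R.IsTate (2 * Y.d) 4 (Y.classOf f) ∧ R.EndAreTate ∧ R.Centre) ∧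
        (R.NoTypeFour → R.Centre) := by
  have : Fact (Nat.Prime 2) := ⟨Nat.prime_two⟩
  refine ⟨?_, ?_⟩
  · obtain ⟨f, hf, hf1, hf2⟩ := (Pool.Agent.H60FP.triv Y).exists_kappa hY
    exact ⟨f, hf1, hf2, hf⟩
  rintro f ⟨hf1, hf2, hf⟩ ℓ _ Γ _ R
  refine ⟨⟨fun h => ⟨h _ _ _ hf, fun a ha => h _ _ a ha, ?_⟩, ?_⟩, ?_⟩
  · intro z hz hE hk j k a ha
    exact hk j k _ ⟨Submodule.subset_span (h j k a ha), Submodule.subset_span ⟨a, ha, rfl⟩⟩
  · rintro ⟨hT, hE, hC⟩ j k a ha
    refine R.all.all_tate (f := f) hf hf1 hf2 hT hE ?_ ha
    intro z hz hzE hk j k b hb
    refine Submodule.span_induction (p := fun b _ => der z b = 0) ?_ ?_ ?_ ?_ hb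
    · rintro _ ⟨c, hc, rfl⟩
      exact hC z hz hzE hk j k c hc
    · rw [← derL_apply, map_zero]
    · intro b c _ _ hb hc
      rw [← derL_apply, map_add, derL_apply, derL_apply, hb, hc, add_zero]
    · intro q b _ hb
      rw [← derL_apply, map_smul, derL_apply, hb, smul_zero]
  · intro h z hz hE hk j k a ha
    exact R.all.centresAgree_of_noTypeFour h z hz hE hk j k _
      (Submodule.mem_sup_right (Submodule.subset_span ⟨a, ha, rfl⟩))

end Pool.Agent.Results.MP_6c781a_ag.OneClassOnFourthPower
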