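import Pool.Agent.H60ZO.Galois

/-!
# A zero-one law for the Tate classes among the Hodge classes on the powers of a variety

Let `Y` be a smooth projective variety over a number field and `ℓ` a prime number. We prove: either
all Hodge classes on all powers of `Y` are Tate classes (via the comparison isomorphism between
singular and `ℓ`-adic cohomology; this is the inclusion `𝓗_{j,k} ⊆ 𝓣_{j,k}` of the Mumford-Tate
conjecture for all `j` and `k`), or the proportion of the Tate classes among the Hodge classes on
`Y ^ k` tends to `0` as `k` tends to infinity. (The proportion is the quotient of the dimensions of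
the spaces of rational classes of all degrees spanned by the Hodge classes that are Tate classes, and
by the Hodge classes.)

In particular, if for some `ε > 0` and infinitely many `k` the motivated (for example the algebraic)
classes make up at least the proportion `ε` of the Hodge classes on `Y ^ k`, then `𝓗_{j,k} ⊆ 𝓣_{j,k}`
for all `j` and `k`. The inclusion is known if `Y` is an abelian variety (Deligne).

The proof: let `R` be a class of cohomology classes stable under the usual operations, and let `Q`
consist of the elements of `R` with finitely many conjugates under a family of automorphisms of the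
cohomology with extended coefficients compatible with all operations. If the proportion of `Q` in `R`
does not tend to `0`, then by the index law `R` is generated over `Q` by finitely many classes; so
the coefficient functions of the classes in `R` form a finitely generated module over the ring of
the functions with finitely many values. This module is a ring because external products multiply
the coefficient functions. So the coefficient functions are integral over the ring of the functions
with finitely many values, hence have finitely many values, and `R = Q`. Here `R` is the class of the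
Hodge classes, and the family is the Galois group with its action on the `ℓ`-adic cohomology.

The setting is that of the starting files: `𝒱` is the class of the smooth projective varieties over
the number field, `W` is the singular cohomology of their complex points as a Weil cohomology
theory, `Ψ` its Hodge structures, `G` the action of the Galois group `Γ` on the cohomology with
`ℓ`-adic coefficients, `pw X n` the product of `n + 1` copies of `X`.
-/

open CategoryTheory AlgebraicGeometry Filter Topology TensorProduct

universe u v

namespace Pool.Agent.Results.MP_6c781a_ag.TateAmongHodge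

open Pool.Agent.H914 Pool.Agent.H914.VarClass Pool.Agent.H914.VarClass.Obj
  Pool.Agent.H914.WeilCohomology Pool.Agent.Y133.Hdg Pool.Agent.R920.MT Pool.Agent.H60ZO Pool.Agent.H60ZO.Gal
open Pool.Agent.Y133.Half (pw dimBy)

variable {k : Type u} [Field k] {𝒱 : VarClass k} {ops : CycleOps 𝒱}

/-- The rational class `c` is a Hodge class, and its image in the `ℓ`-adic cohomology is a Tate
class. -/
def IsBoth {W : WeilCohomology.{u, v} ops} [Algebra W.K ℝ] (Ψ : HodgeStr W) {ℓ : ℕ}
    [Fact ℓ.Prime] [Algebra W.K ℚ_[ℓ]] {Γ : Type} [Group Γ] (G : GaloisAction W ℚ_[ℓ] Γ)
    (Z : 𝒱.Obj) (j : ℕ) (c : W.H Z) : Prop :=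
  IsHodge Ψ Z j c ∧ IsTate G Z j c

/-- All Hodge classes on all powers of `X` are Tate classes. -/
def HodgeAreTate {W : WeilCohomology.{u, v} ops} [Algebra W.K ℝ] (Ψ : HodgeStr W) {ℓ : ℕ}
    [Fact ℓ.Prime] [Algebra W.K ℚ_[ℓ]] {Γ : Type} [Group Γ] (G : GaloisAction W ℚ_[ℓ] Γ)
    (X : 𝒱.Obj) : Prop :=
  ∀ n j c, IsHodge Ψ (pw X n) j c → IsTate G (pw X n) j c

/-- The quotients `a n / b n` tend to zero. -/
def Negligible (a b : ℕ → ℕ) : Prop := Tendsto (fun n => (a n : ℝ) / b n) atTop (𝓝 0)

/-- **The zero-one law.** -/
theorem result (W : WeilCohomology.{u, v} ops) [Algebra W.K ℝ] (Ψ : HodgeStr W) (ℓ : ℕ)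
    [Fact ℓ.Prime] [Algebra W.K ℚ_[ℓ]] (Γ : Type) [Group Γ] (G : GaloisAction W ℚ_[ℓ] Γ)
    (X : 𝒱.Obj) [Nontrivial (W.H X)] (b h m : ℕ → ℕ)
    (hb : ∀ n, b n = dimBy W (IsBoth Ψ G) (pw X n))
    (hh : ∀ n, h n = dimBy W (IsHodge Ψ) (pw X n))
    (hm : ∀ n, m n = dimBy W (IsMotivated W) (pw X n)) :
    (HodgeAreTate Ψ G X ↔ ¬ Negligible b h) ∧ (¬ Negligible m h → HodgeAreTate Ψ G X) := by
  obtain rfl := funext hb
  obtain rfl := funext hh
  obtain rfl := funext hm
  exact law_tate' Ψ G X

end Pool.Agent.Results.MP_6c781a_ag.TateAmongHodge
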